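import Mathlib

namespace Pool.Agent.X44.GPS

/-- complement of a binary word (`true` is the letter 1) -/
def cp (w : List Bool) : List Bool := w.map (!·)

/-- `V 0 = 1`, `V (m+1) = V V' 110 V' V V' 110 V' V` with `V'` the complement of `V = V m`;
length `2 * 7^m - 1`. -/
def V : ℕ → List Bool
  | 0 => [true]
  | m + 1 => V m ++ cp (V m) ++ [true, true, false] ++ cp (V m) ++ V m ++ cp (V m) ++
      [true, true, false] ++ cp (V m) ++ V m

/-- the factor of length `n` at position `i` -/
def fac (u : ℕ → Bool) (i n : ℕ) : List Bool := List.ofFn (fun j : Fin n => u (i + j))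

/-- factor complexity -/
noncomputable def cplx (u : ℕ → Bool) (n : ℕ) : ℕ := (Set.range (fun i => fac u i n)).ncard

/-- COUNTING PART. `u` has all the words `V m` as prefixes; then `cplx u n - 4 n` is unbounded.

Proof. Let `a = V m`, `b = cp (V m)`, `c = 110`, `d = 001` (level `m ≥ 1`, so that `b` starts with
`01` and `a` with `10`); `V (m+1) = abcbabcba`, `cp (V (m+1)) = badabadab`. The set of factors of `u` is
closed under complement (`cp (V m)` occurs in `V (m+1)`).
Right special words of level `m` (both extensions by one letter are factors of `u`):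
* `A = V (m+1) ++ [0]`, length `14 * 7^m`: in `V_{m+1} cp V_{m+1} = V_{m+1} 01..` and
  `V_{m+1} 001` (which is in `cp V_{m+2}`, hence in `V_{m+3}`);
* `B = a b a d a b a ++ [0]`, length `12 * 7^m - 2`: `abadaba|b = ..01` is in
  `cp V_{m+1} V_{m+1} = badabadab abcb..`, `abadaba|d = ..00` is in `V_{m+1} cp V_{m+1} = ..cba badabad..`
  (both in `V_{m+2}`);
* `C = b a d a b c b a ++ [0]`, length `12 * 7^m + 1`: `badabcba|b` is in `V_{m+1} d V_{m+1}`
  (in `V_{m+3}`), `badabcba|d` is in `cp V_{m+1} c cp V_{m+1}` (in `V_{m+2}`);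
* the complements of A, B, C.
All suffixes of right special words are right special. Suffixes of length n of A and B differ for
`n ≥ 4*7^m` (common suffix `b a 0`, then `c = 110` against `a = ..1`), A and C for `n ≥ 8*7^m+1`
(common suffix `a b c b a 0`, then `b = ..0` against `d = 001`), B and C for `n ≥ 4*7^m`; words of the
first three types end with 0, their complements with 1. Number of right special words of length n:
`≥ 2` for `n ≤ 4*7^m - 1`, `≥ 4` for `4*7^m ≤ n ≤ 8*7^m`, `≥ 6` for `8*7^m+1 ≤ n ≤ 12*7^m-2`.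
Since `cplx (n+1) ≥ cplx n + #rightspecial n`,
`cplx (12*7^m-1) ≥ cplx (12*7^(m-1)-1) + 312*7^(m-1) - 6`, and
`4*(12*7^m-1) - 4*(12*7^(m-1)-1) = 288*7^(m-1)`: the difference `cplx n - 4n` at `n = 12*7^m-1`
grows by at least `24*7^(m-1) - 6` at each step (exact values: `52*7^m-8` at `n = 12*7^m-1`). -/
def S_COUNT : Prop := ∀ u : ℕ → Bool, (∀ m i, ∀ h : i < (V m).length, u i = (V m)[i]) →
  ∀ c : ℕ, ∃ n, 4 * n + c < cplx u n

end Pool.Agent.X44.GPS
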